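import Mathlib

set_option autoImplicit false

namespace Pool.Agent.Lib.MP_1309d3_ag

open MvPolynomial

/-- The group of polynomial automorphisms of complex affine `n`-space. -/
abbrev Aut (n : ℕ) : Type := MvPolynomial (Fin n) ℂ ≃ₐ[ℂ] MvPolynomial (Fin n) ℂ

/-- The affine automorphisms. -/
def Aff (n : ℕ) : Set (Aut n) := {σ | ∀ i : Fin n, (σ (X i)).totalDegree ≤ 1}

/-- The elementary automorphisms: one coordinate is changed by a polynomial in the others. -/
def Elem (n : ℕ) : Set (Aut n) :=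
  {σ | ∃ (i : Fin n) (q : MvPolynomial (Fin n) ℂ), i ∉ q.vars ∧ σ (X i) = X i + q ∧
    ∀ j : Fin n, j ≠ i → σ (X j) = X j}

/-- Products of four elementary automorphisms separated by three affine ones. -/
def FourElem (n : ℕ) : Set (Aut n) :=
  {F | ∃ e₁ ∈ Elem n, ∃ e₂ ∈ Elem n, ∃ e₃ ∈ Elem n, ∃ e₄ ∈ Elem n,
    ∃ a₁ ∈ Aff n, ∃ a₂ ∈ Aff n, ∃ a₃ ∈ Aff n, F = e₁ * a₁ * e₂ * a₂ * e₃ * a₃ * e₄}

/-- The subgroup generated by the affine group and a set of automorphisms. -/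
noncomputable def gen {n : ℕ} (S : Set (Aut n)) : Subgroup (Aut n) := Subgroup.closure (Aff n ∪ S)

end Pool.Agent.Lib.MP_1309d3_ag
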