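import Pool.Agent.Lib.MP_1309d3_ag.Trans

set_option autoImplicit false

namespace Pool.Agent.Lib.MP_1309d3_ag

open MvPolynomial Module

section Basic

variable {σ τ : Type}

theorem affine_repr [Fintype σ] {f : MvPolynomial σ ℂ} (hf : f.totalDegree ≤ 1) :
    f = C (coeff 0 f) + ∑ l, coeff (Finsupp.single l 1) f • X l := by
  classical
  ext γ
  rw [coeff_add, coeff_sum, coeff_C]
  simp only [coeff_smul, smul_eq_mul, coeff_X]
  by_cases h0 : γ = 0
  · subst h0
    rw [if_pos rfl, Finset.sum_eq_zero, add_zero]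
    intro l _
    rw [if_neg (by simp), mul_zero]
  rw [if_neg (Ne.symm h0), zero_add]
  by_cases h1 : ∃ l, γ = Finsupp.single l 1
  · obtain ⟨l, rfl⟩ := h1
    rw [Finset.sum_eq_single l]
    · simp
    · intro l' _ hl
      rw [if_neg, mul_zero]
      intro h
      exact hl (Finsupp.single_left_injective one_ne_zero h)
    · simp
  · rw [Finset.sum_eq_zero]
    · by_contra h
      have h2 := (le_totalDegree (mem_support_iff.2 h)).trans hf
      have h3 : γ.sum (fun _ e => e) ≠ 0 := by
        intro h3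
        apply h0
        ext l
        by_contra hl
        exact hl (Finset.sum_eq_zero_iff.1 h3 l (Finsupp.mem_support_iff.2 hl))
      obtain ⟨a, ha⟩ := (Finsupp.sum_eq_one_iff γ).1 (by omega)
      exact h1 ⟨a, ha⟩
    · intro l _
      rw [if_neg (fun h => h1 ⟨l, h.symm⟩), mul_zero]

theorem totalDegree_algHom_le (φ : MvPolynomial σ ℂ →ₐ[ℂ] MvPolynomial τ ℂ) {T : ℕ}
    (h : ∀ l, (φ (X l)).totalDegree ≤ T) (f : MvPolynomial σ ℂ) :
    (φ f).totalDegree ≤ f.totalDegree * T := by
  classical
  conv_lhs => rw [f.as_sum, map_sum]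
  refine totalDegree_finsetSum_le fun β hβ => ?_
  rw [monomial_eq, map_mul, map_finsuppProd, algHom_C]
  refine (totalDegree_mul _ _).trans ?_
  rw [algebraMap_eq, totalDegree_C, zero_add]
  refine (totalDegree_finsetProd _ _).trans ?_
  refine le_trans ?_ (Nat.mul_le_mul_right T (le_totalDegree hβ))
  rw [Finsupp.sum, Finset.sum_mul]
  refine Finset.sum_le_sum fun l _ => ?_
  beta_reduce
  rw [map_pow]
  exact (totalDegree_pow _ _).trans (Nat.mul_le_mul_left _ (h l))

/-- The derivative in the constant direction `v`. -/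
noncomputable def dv (v : σ → ℂ) : Derivation ℂ (MvPolynomial σ ℂ) (MvPolynomial σ ℂ) :=
  mkDerivation ℂ fun j => C (v j)

@[simp] theorem dv_X (v : σ → ℂ) (j : σ) : dv v (X j) = C (v j) := mkDerivation_X _ _ _

@[simp] theorem dv_C (v : σ → ℂ) (c : ℂ) : dv v (C c) = 0 := derivation_C _ _

theorem chain {Q : Type} [CommRing Q] [Algebra ℂ Q] (δ : Derivation ℂ Q Q)
    (α : MvPolynomial σ ℂ →ₐ[ℂ] Q) (w : σ → ℂ) (h : ∀ j, δ (α (X j)) = algebraMap ℂ Q (w j))
    (p : MvPolynomial σ ℂ) : δ (α p) = α (dv w p) := by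
  induction p using MvPolynomial.induction_on with
  | C c => simp
  | add p q hp hq => simp [hp, hq]
  | mul_X p j hp =>
    rw [map_mul, δ.leibniz, (dv w).leibniz, hp, h, dv_X]
    simp

theorem chain_iter {Q : Type} [CommRing Q] [Algebra ℂ Q] (δ : Derivation ℂ Q Q)
    (α : MvPolynomial σ ℂ →ₐ[ℂ] Q) (w : σ → ℂ) (h : ∀ j, δ (α (X j)) = algebraMap ℂ Q (w j))
    (k : ℕ) (p : MvPolynomial σ ℂ) : δ^[k] (α p) = α ((dv w)^[k] p) := by
  induction k generalizing p with
  | zero => rfl
  | succ k ih => rw [Function.iterate_succ_apply, chain δ α w h, ih, Function.iterate_succ_apply]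

theorem dv_apply [Fintype σ] (v : σ → ℂ) (f : MvPolynomial σ ℂ) :
    dv v f = ∑ j, v j • pderiv j f := by
  classical
  induction f using MvPolynomial.induction_on with
  | C c => simp
  | add p q hp hq => simp [hp, hq, Finset.sum_add_distrib]
  | mul_X p j hp =>
    rw [(dv v).leibniz, hp, dv_X]
    simp only [Derivation.leibniz, pderiv_X, smul_add, Finset.sum_add_distrib, smul_eq_mul,
      Finset.mul_sum]
    congr 1
    · rw [Finset.sum_eq_single j]
      · simp [smul_eq_C_mul, mul_comm]
      · intro l _ hl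
        simp [Pi.single_eq_of_ne hl.symm]
      · simp
    · exact Finset.sum_congr rfl fun l _ => by rw [mul_smul_comm]

theorem dv_smul (c : ℂ) (v : σ → ℂ) (f : MvPolynomial σ ℂ) : dv (c • v) f = c • dv v f := by
  have : dv (c • v) = c • dv v := derivation_ext fun j => by simp [smul_eq_C_mul]
  rw [this]; rfl

/-- The iterated derivative as a linear map. -/
noncomputable def dk (v : σ → ℂ) (k : ℕ) : MvPolynomial σ ℂ →ₗ[ℂ] MvPolynomial σ ℂ :=
  ((dv v : MvPolynomial σ ℂ →ₗ[ℂ] MvPolynomial σ ℂ) : Module.End ℂ (MvPolynomial σ ℂ)) ^ k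

theorem dk_apply (v : σ → ℂ) (k : ℕ) (f : MvPolynomial σ ℂ) : dk v k f = (dv v)^[k] f := by
  rw [dk, Module.End.pow_apply]; rfl

theorem dk_succ (v : σ → ℂ) (k : ℕ) (f : MvPolynomial σ ℂ) :
    dk v (k + 1) f = dk v k (dv v f) := by
  rw [dk_apply, dk_apply, Function.iterate_succ_apply]

theorem dk_smul (c : ℂ) (v : σ → ℂ) (k : ℕ) (f : MvPolynomial σ ℂ) :
    dk (c • v) k f = c ^ k • dk v k f := by
  induction k generalizing f with
  | zero => simp [dk]
  | succ k ih => rw [dk_succ, dk_succ, dv_smul, map_smul, ih, smul_smul, pow_succ']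

theorem dk_pow {v : σ → ℂ} {f g : MvPolynomial σ ℂ} (hf : dv v f = 1) (hg : dv v g = 0)
    (k i : ℕ) : dk v k (g * f ^ (i + k)) = ((i + k).descFactorial k : ℂ) • (g * f ^ i) := by
  induction k with
  | zero => simp [dk]
  | succ k ih =>
    rw [dk_succ, (dv v).leibniz, hg, smul_zero, add_zero, (dv v).leibniz_pow, hf,
      show i + (k + 1) - 1 = i + k by omega, smul_eq_mul, smul_eq_mul, mul_one,
      ← Nat.cast_smul_eq_nsmul ℂ, mul_smul_comm, map_smul, ih, smul_smul,
      show i + (k + 1) = (i + k) + 1 by omega, Nat.succ_descFactorial_succ]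
    push_cast
    rfl

theorem exists_lift {v : σ → ℂ} {f g : MvPolynomial σ ℂ} (hf : dv v f = 1) (hg : dv v g = 0)
    (k i : ℕ) : ∃ c : ℂ, dk v k (c • (g * f ^ (i + k))) = g * f ^ i := by
  refine ⟨((i + k).descFactorial k : ℂ)⁻¹, ?_⟩
  rw [map_smul, dk_pow hf hg, smul_smul, inv_mul_cancel₀, one_smul]
  exact_mod_cast (Nat.descFactorial_pos.2 (by omega)).ne'

theorem linearIndependent_pow {v : σ → ℂ} {f : MvPolynomial σ ℂ} (hf : dv v f = 1) (μ : ℕ) :
    LinearIndependent ℂ fun i : Fin μ => f ^ (i : ℕ) := by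
  have ht : Transcendental ℂ f := by
    intro ha
    have hi := ha.isIntegral
    have h1 := IsAlgClosed.degree_eq_one_of_irreducible ℂ (minpoly.irreducible hi)
    obtain ⟨c, hc⟩ := (minpoly.degree_eq_one_iff).1 h1
    rw [← hc, Derivation.map_algebraMap] at hf
    exact zero_ne_one hf
  have hinj := transcendental_iff_injective.1 ht
  have h1 := ((Polynomial.basisMonomials ℂ).linearIndependent.comp (fun i : Fin μ => (i : ℕ))
    Fin.val_injective).map' (Polynomial.aeval f).toLinearMap (LinearMap.ker_eq_bot.2 hinj)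
  have e : (fun i : Fin μ => f ^ (i : ℕ)) = (⇑(Polynomial.aeval f).toLinearMap ∘
      ⇑(Polynomial.basisMonomials ℂ) ∘ fun i : Fin μ => (i : ℕ)) := by
    funext i
    simp
  rw [e]
  exact h1

/-- Polynomials with all coefficients in a subfield. -/
def defined (σ : Type) (K : Subfield ℂ) : Subring (MvPolynomial σ ℂ) where
  carrier := {f | ∀ γ, coeff γ f ∈ K}
  mul_mem' := by
    classical
    intro f g hf hg γ
    rw [coeff_mul]
    exact K.sum_mem fun x _ => K.mul_mem (hf _) (hg _)
  one_mem' := by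
    classical
    intro γ
    rw [coeff_one]
    split_ifs
    exacts [K.one_mem, K.zero_mem]
  add_mem' := fun hf hg γ => by rw [coeff_add]; exact K.add_mem (hf _) (hg _)
  zero_mem' := fun γ => by rw [coeff_zero]; exact K.zero_mem
  neg_mem' := fun hf γ => by rw [coeff_neg]; exact K.neg_mem (hf _)

theorem smul_mem_defined {K : Subfield ℂ} {c : ℂ} (hc : c ∈ K) {f : MvPolynomial σ ℂ}
    (hf : f ∈ defined σ K) : c • f ∈ defined σ K := fun γ => by
  rw [coeff_smul]; exact K.mul_mem hc (hf γ)

theorem monomial_mem_defined (K : Subfield ℂ) (β : σ →₀ ℕ) :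
    monomial β (1 : ℂ) ∈ defined σ K := fun γ => by
  classical
  rw [coeff_monomial]
  split_ifs
  exacts [K.one_mem, K.zero_mem]

theorem dk_mem_defined [Fintype σ] {K : Subfield ℂ} {v : σ → ℂ} (hv : ∀ j, v j ∈ K) (k : ℕ)
    {f : MvPolynomial σ ℂ} (hf : f ∈ defined σ K) : dk v k f ∈ defined σ K := by
  induction k generalizing f with
  | zero => simpa [dk] using hf
  | succ k ih =>
    rw [dk_succ]
    refine ih ?_
    rw [dv_apply]
    refine Subring.sum_mem _ fun j _ => smul_mem_defined (hv j) fun γ => ?_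
    rw [coeff_pderiv]
    exact K.mul_mem (hf _) (K.add_mem (natCast_mem K _) K.one_mem)

theorem algHom_monomial_mem_defined {K : Subfield ℂ}
    (α : MvPolynomial σ ℂ →ₐ[ℂ] MvPolynomial σ ℂ) (h : ∀ j, α (X j) ∈ defined σ K)
    (β : σ →₀ ℕ) : α (monomial β 1) ∈ defined σ K := by
  rw [monomial_eq, C_1, one_mul, map_finsuppProd]
  refine Subring.prod_mem _ fun j _ => ?_
  beta_reduce
  rw [map_pow]
  exact pow_mem (h j) _

/-- Exponent vectors of degree at most `d`. -/
abbrev Idx (σ : Type) (d : ℕ) : Type := ↥{β : σ →₀ ℕ | β.degree ≤ d}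

noncomputable instance [Finite σ] (d : ℕ) : Fintype (Idx σ d) :=
  (Finsupp.finite_of_degree_le d).fintype

instance (d : ℕ) : Nonempty (Idx σ d) := ⟨⟨0, by simp⟩⟩

/-- The polynomial of degree at most `d` with given coefficients. -/
noncomputable def pol [Finite σ] (d : ℕ) (c : Idx σ d → ℂ) : MvPolynomial σ ℂ :=
  ∑ β, c β • monomial β.1 (1 : ℂ)

theorem totalDegree_pol [Finite σ] (d : ℕ) (c : Idx σ d → ℂ) : (pol d c).totalDegree ≤ d :=
  totalDegree_finsetSum_le fun β _ =>
    (totalDegree_smul_le _ _).trans ((totalDegree_monomial_le _ _).trans β.2)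

theorem map_mem_of_monomial {d : ℕ} (L : MvPolynomial σ ℂ →ₗ[ℂ] MvPolynomial σ ℂ)
    (V : Submodule ℂ (MvPolynomial σ ℂ)) (h : ∀ β : Idx σ d, L (monomial β.1 1) ∈ V)
    {z : MvPolynomial σ ℂ} (hz : z.totalDegree ≤ d) : L z ∈ V := by
  rw [z.as_sum, map_sum]
  refine V.sum_mem fun β hβ => ?_
  rw [show monomial β (coeff β z) = coeff β z • monomial β (1 : ℂ) by simp [smul_monomial],
    map_smul]
  exact V.smul_mem _ (h ⟨β, (le_totalDegree hβ).trans hz⟩)

theorem le_finrank_of_pow_mem {v : σ → ℂ} {f : MvPolynomial σ ℂ} (hf : dv v f = 1) {μ : ℕ}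
    (V : Submodule ℂ (MvPolynomial σ ℂ)) [Module.Finite ℂ V] (h : ∀ i < μ, f ^ i ∈ V) :
    μ ≤ finrank ℂ V := by
  have h1 : LinearIndependent ℂ fun i : Fin μ => (⟨f ^ (i : ℕ), h i i.2⟩ : V) :=
    LinearIndependent.of_comp V.subtype (linearIndependent_pow hf μ)
  simpa using h1.fintype_card_le_finrank

theorem le_two_finrank {v : σ → ℂ} {f g : MvPolynomial σ ℂ} (hf : dv v f = 1) {μ : ℕ}
    (V : Submodule ℂ (MvPolynomial σ ℂ)) [Module.Finite ℂ V]
    (α : MvPolynomial σ ℂ →ₐ[ℂ] MvPolynomial σ ℂ) {c a : ℂ} (ha : a ≠ 0) (hg : α g ≠ g)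
    (h1 : ∀ i < μ, c • α (f ^ i) - a • f ^ i ∈ V)
    (h2 : ∀ i < μ, c • α (g * f ^ i) - a • (g * f ^ i) ∈ V) : μ ≤ 2 * finrank ℂ V := by
  have hl : LinearIndependent ℂ fun i : Fin μ =>
      ((⟨_, h1 i i.2⟩, ⟨_, h2 i i.2⟩) : V × V) := by
    rw [Fintype.linearIndependent_iff]
    intro u hu
    set z := ∑ i : Fin μ, u i • f ^ (i : ℕ) with hz
    have e1 : c • α z - a • z = 0 := by
      have := congrArg (fun x : V × V => (x.1 : MvPolynomial σ ℂ)) hu
      simp only [Prod.fst_sum, Prod.smul_fst, Submodule.coe_sum, Submodule.coe_smul,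
        Prod.fst_zero, Submodule.coe_zero] at this
      rw [← this, hz, map_sum, Finset.smul_sum, Finset.smul_sum, ← Finset.sum_sub_distrib]
      refine Finset.sum_congr rfl fun i _ => ?_
      rw [map_smul, smul_sub, smul_comm c, smul_comm a]
    have e2 : c • α (g * z) - a • (g * z) = 0 := by
      have := congrArg (fun x : V × V => (x.2 : MvPolynomial σ ℂ)) hu
      simp only [Prod.snd_sum, Prod.smul_snd, Submodule.coe_sum, Submodule.coe_smul,
        Prod.snd_zero, Submodule.coe_zero] at this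
      rw [← this, hz, Finset.mul_sum, map_sum, Finset.smul_sum, Finset.smul_sum,
        ← Finset.sum_sub_distrib]
      refine Finset.sum_congr rfl fun i _ => ?_
      rw [mul_smul_comm, map_smul, smul_sub, smul_comm c, smul_comm a]
    have e3 : (α g - g) * (a • z) = 0 := by
      rw [map_mul, ← mul_smul_comm, sub_eq_zero.1 e1, ← mul_smul_comm] at e2
      rw [sub_mul, e2]
    have hz0 : z = 0 := by
      rcases mul_eq_zero.1 e3 with h | h
      · exact absurd (sub_eq_zero.1 h) hg
      · exact (smul_eq_zero.1 h).resolve_left ha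
    exact Fintype.linearIndependent_iff.1 (linearIndependent_pow hf μ) u (hz.symm.trans hz0)
  have := hl.fintype_card_le_finrank
  rw [finrank_prod, Fintype.card_fin] at this
  omega

end Basic

section Main

variable {m : ℕ}

/-- Polynomials in `m` variables. -/
abbrev P (m : ℕ) : Type := MvPolynomial (Fin m) ℂ

/-- `q` has degree at most `d` and degree at least `k` in every direction. -/
def Good (d k : ℕ) (q : P m) : Prop := q.totalDegree ≤ d ∧ ∀ v : Fin m → ℂ, v ≠ 0 → dk v k q ≠ 0

theorem Good.smul {d k : ℕ} {q : P m} (h : Good d k q) {c : ℂ} (hc : c ≠ 0) : Good d k (c • q) :=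
  ⟨(totalDegree_smul_le _ _).trans h.1, fun v hv => by
    rw [map_smul]; exact smul_ne_zero hc (h.2 v hv)⟩

theorem totalDegree_mul_pow_le {f g : P m} (hf : f.totalDegree ≤ 1) (hg : g.totalDegree ≤ 1)
    (c : ℂ) (n : ℕ) : (c • (g * f ^ n)).totalDegree ≤ n + 1 := by
  refine (totalDegree_smul_le _ _).trans ((totalDegree_mul _ _).trans ?_)
  have := (totalDegree_pow f n).trans (Nat.mul_le_mul_left n hf)
  omega

theorem totalDegree_smul_X_le (c : ℂ) (j : Fin m) : (c • X j : P m).totalDegree ≤ 1 :=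
  (totalDegree_smul_le _ _).trans (totalDegree_X j).le

/-- The rank bound for the operator attached to an affine substitution. -/
theorem rank_bound {k μ : ℕ} (hk : 1 ≤ k) (α : P m →ₐ[ℂ] P m)
    (hα : ∀ l, (α (X l)).totalDegree ≤ 1) {a : ℂ} (ha : a ≠ 0)
    (hne : a ≠ 1 ∨ ∃ l, α (X l) ≠ X l) {v : Fin m → ℂ} (hv : v ≠ 0)
    (V : Submodule ℂ (P m)) [Module.Finite ℂ V]
    (hV : ∀ z : P m, z.totalDegree ≤ k + μ → dk v k (α z - a • z) ∈ V) :
    μ ≤ 2 * finrank ℂ V := by
  classical
  obtain ⟨j0, hj0⟩ : ∃ j, v j ≠ 0 := Function.ne_iff.1 hv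
  let w : Fin m → ℂ := fun j => ∑ l, coeff (Finsupp.single l 1) (α (X j)) * v l
  have hw : ∀ j, dv v (α (X j)) = algebraMap ℂ (P m) (w j) := fun j => by
    rw [affine_repr (hα j)]
    simp [w, smul_eq_C_mul]
  have hch : ∀ z, dk v k (α z) = α (dk w k z) := fun z => by
    rw [dk_apply, dk_apply]; exact chain_iter (dv v) α w hw k z
  by_cases hpar : ∃ c : ℂ, w = c • v
  · obtain ⟨c, hc⟩ := hpar
    let f : P m := (v j0)⁻¹ • X j0
    have hf : dv v f = 1 := by
      simp only [f, Derivation.map_smul, dv_X]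
      rw [smul_eq_C_mul, ← C_mul, inv_mul_cancel₀ hj0, C_1]
    have hf1 : f.totalDegree ≤ 1 := totalDegree_smul_X_le _ _
    have hV' : ∀ z : P m, z.totalDegree ≤ k + μ →
        c ^ k • α (dk v k z) - a • dk v k z ∈ V := fun z hz => by
      have := hV z hz
      rwa [map_sub, hch, hc, dk_smul, map_smul, map_smul] at this
    have hpow : ∀ i ≤ μ, c ^ k • α (f ^ i) - a • f ^ i ∈ V := fun i hi => by
      obtain ⟨e, he⟩ := exists_lift (g := 1) hf (by simp) k i
      have := hV' (e • (1 * f ^ (i + k))) (by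
        rw [one_mul]
        refine (totalDegree_smul_le _ _).trans ((totalDegree_pow _ _).trans ?_)
        have := Nat.mul_le_mul_left (i + k) hf1
        omega)
      rwa [he, one_mul] at this
    by_cases hid : ∀ l, α (X l) = X l
    · have ha1 : a ≠ 1 := hne.resolve_right (by simpa using hid)
      have hα1 : α = AlgHom.id ℂ _ := algHom_ext hid
      have h1 : μ ≤ finrank ℂ V := by
        refine le_finrank_of_pow_mem hf V fun i hi => ?_
        obtain ⟨e, he⟩ := exists_lift (g := 1) hf (by simp) k i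
        have := hV (e • (1 * f ^ (i + k))) (by
          rw [one_mul]
          refine (totalDegree_smul_le _ _).trans ((totalDegree_pow _ _).trans ?_)
          have := Nat.mul_le_mul_left (i + k) hf1
          omega)
        rw [hα1, AlgHom.id_apply, map_sub, map_smul _ a, he, one_mul] at this
        have h2 := V.smul_mem (1 - a)⁻¹ this
        rwa [show f ^ i - a • f ^ i = (1 - a) • f ^ i by rw [sub_smul, one_smul], smul_smul,
          inv_mul_cancel₀ (sub_ne_zero.2 ha1.symm), one_smul] at h2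
      omega
    · by_cases hff : α f = f
      · obtain ⟨l, hl⟩ := not_forall.1 hid
        have hg : α (X l - v l • f) ≠ X l - v l • f := by
          rw [map_sub, map_smul, hff]
          exact fun h => hl (sub_left_injective h)
        have hg0 : dv v (X l - v l • f) = 0 := by
          rw [map_sub, Derivation.map_smul, hf, dv_X, smul_eq_C_mul, mul_one, sub_self]
        have hg1 : (X l - v l • f : P m).totalDegree ≤ 1 :=
          (totalDegree_sub _ _).trans
            (max_le (totalDegree_X l).le ((totalDegree_smul_le _ _).trans hf1))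
        refine le_two_finrank hf V α ha hg (fun i hi => hpow i hi.le) fun i hi => ?_
        obtain ⟨e, he⟩ := exists_lift hf hg0 k i
        have := hV' _ ((totalDegree_mul_pow_le hf1 hg1 e (i + k)).trans (by omega))
        rwa [he] at this
      · refine le_two_finrank hf V α ha hff (fun i hi => hpow i hi.le) fun i hi => ?_
        rw [← pow_succ']
        exact hpow (i + 1) hi
  · obtain ⟨j1, hj1⟩ : ∃ j, w j ≠ w j0 / v j0 * v j := by
      by_contra h
      push Not at h
      exact hpar ⟨w j0 / v j0, funext h⟩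
    have hr : w j1 * v j0 - w j0 * v j1 ≠ 0 := by
      intro h
      apply hj1
      field_simp
      linear_combination h
    let f : P m := (w j1 * v j0 - w j0 * v j1)⁻¹ • (w j1 • X j0 - w j0 • X j1)
    have hf : dv v f = 1 := by
      simp only [f, Derivation.map_smul, map_sub, dv_X]
      simp only [smul_eq_C_mul, ← C_mul, ← C_sub]
      rw [inv_mul_cancel₀ hr, C_1]
    have hf0 : dv w f = 0 := by
      simp only [f, Derivation.map_smul, map_sub, dv_X]
      simp only [smul_eq_C_mul, ← C_mul, ← C_sub]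
      rw [mul_comm (w j1) (w j0), sub_self, mul_zero, C_0]
    have hf1 : f.totalDegree ≤ 1 :=
      (totalDegree_smul_le _ _).trans ((totalDegree_sub _ _).trans
        (max_le (totalDegree_smul_X_le _ _) (totalDegree_smul_X_le _ _)))
    have h1 : μ ≤ finrank ℂ V := by
      refine le_finrank_of_pow_mem hf V fun i hi => ?_
      obtain ⟨e, he⟩ := exists_lift (g := 1) hf (by simp) k i
      have := hV (e • (1 * f ^ (i + k))) (by
        rw [one_mul]
        refine (totalDegree_smul_le _ _).trans ((totalDegree_pow _ _).trans ?_)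
        have := Nat.mul_le_mul_left (i + k) hf1
        omega)
      have h0 : dk w k (e • (1 * f ^ (i + k))) = 0 := by
        obtain ⟨k', rfl⟩ : ∃ k', k = k' + 1 := ⟨k - 1, by omega⟩
        rw [dk_succ, Derivation.map_smul, one_mul, (dv w).leibniz_pow, hf0]
        simp
      rw [map_sub, hch, h0, map_zero, map_smul _ a, he, one_mul, zero_sub] at this
      have h2 := V.smul_mem a⁻¹ (V.neg_mem_iff.1 this)
      rwa [smul_smul, inv_mul_cancel₀ ha, one_smul] at h2
    omega

/-- The number of parameters of an affine substitution, a scalar and a direction. -/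
def npar (m : ℕ) : ℕ := m * m + m + m + 1

theorem exists_params (α : P m →ₐ[ℂ] P m) (hα : ∀ l, (α (X l)).totalDegree ≤ 1) (a : ℂ)
    (v : Fin m → ℂ) : ∃ Y : Finset ℂ, Y.card ≤ npar m ∧ a ∈ Subfield.closure (Y : Set ℂ) ∧
      (∀ j, v j ∈ Subfield.closure (Y : Set ℂ)) ∧
      ∀ j, α (X j) ∈ defined (Fin m) (Subfield.closure (Y : Set ℂ)) := by
  classical
  let s : Option ((Fin m × Fin m) ⊕ Fin m ⊕ Fin m) → ℂ := fun x => x.elim a
    (Sum.elim (fun y => coeff (Finsupp.single y.2 1) (α (X y.1)))
      (Sum.elim (fun j => coeff 0 (α (X j))) v))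
  have hs : ∀ x, s x ∈ Subfield.closure ((Finset.univ.image s : Finset ℂ) : Set ℂ) := fun x =>
    Subfield.subset_closure (by simp)
  refine ⟨Finset.univ.image s, Finset.card_image_le.trans (by simp [npar, add_assoc]), hs none,
    fun j => hs (some (.inr (.inr j))), fun j => ?_⟩
  rw [affine_repr (hα j)]
  refine add_mem ?_ (Subring.sum_mem _ fun l _ =>
    smul_mem_defined (hs (some (.inl (j, l)))) (monomial_mem_defined _ _))
  rw [C_eq_smul_one]
  exact smul_mem_defined (hs (some (.inr (.inl j)))) (one_mem _)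

theorem mem_of_monomial_one {d k : ℕ} (α : P m →ₐ[ℂ] P m) (a : ℂ) (v : Fin m → ℂ)
    (V : Submodule ℂ (P m))
    (h : ∀ β : Idx (Fin m) d, dk v k (α (monomial β.1 1) - a • monomial β.1 1) ∈ V)
    {z : P m} (hz : z.totalDegree ≤ d) : dk v k (α z - a • z) ∈ V := by
  have e : ∀ y : P m, ((dk v k).comp (α.toLinearMap - a • LinearMap.id)) y =
      dk v k (α y - a • y) := fun y => by simp
  rw [← e]
  exact map_mem_of_monomial _ V (fun β => by rw [e]; exact h β) hz

/-- Continuum many very general polynomials. -/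
theorem exists_good_family (m k d : ℕ) (hk : 1 ≤ k) (hd : d = k + (2 * npar m + 1)) :
    ∃ p : ℂ → P m,
    ∀ (i j : ℂ) (α : P m →ₐ[ℂ] P m), (∀ l, (α (X l)).totalDegree ≤ 1) → ∀ a : ℂ, a ≠ 0 →
      (i ≠ j ∨ a ≠ 1 ∨ ∃ l, α (X l) ≠ X l) → Good d k (α (p j) - a • p i) := by
  classical
  obtain ⟨t, ht⟩ := exists_generic (Idx (Fin m) d)
  refine ⟨fun i => pol d fun β => t (i, β), fun i j α hα a ha hne => ⟨?_, fun v hv h0 => ?_⟩⟩
  · refine (totalDegree_sub _ _).trans (max_le ?_ ?_)
    · exact (totalDegree_algHom_le α hα _).trans (by simpa using totalDegree_pol d _)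
    · exact (totalDegree_smul_le _ _).trans (totalDegree_pol d _)
  beta_reduce at h0
  obtain ⟨Y, hY, haY, hvY, hαY⟩ := exists_params α hα a v
  by_cases hij : i = j
  · subst hij
    obtain ⟨w, hw⟩ : ∃ w : Idx (Fin m) d → P m, ∀ β, w β =
      dk v k (α (monomial β.1 1) - a • monomial β.1 1) := ⟨_, fun _ => rfl⟩
    have h1 := finrank_le_of_generic (ht.comp (fun β => (i, β)) (Prod.mk_right_injective i)) Y w
      (fun β => by
        rw [hw]
        exact dk_mem_defined hvY k (sub_mem (algHom_monomial_mem_defined α hαY _)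
          (smul_mem_defined haY (monomial_mem_defined _ _)))) (by
      rw [← h0, pol, map_sum, Finset.smul_sum, ← Finset.sum_sub_distrib, map_sum]
      refine Finset.sum_congr rfl fun β _ => ?_
      rw [map_smul, smul_comm a, ← smul_sub, map_smul, hw]
      rfl)
    have := Module.Finite.span_of_finite ℂ (Set.finite_range w)
    have h2 := rank_bound (μ := 2 * npar m + 1) hk α hα ha (hne.resolve_left (by simp)) hv
      (Submodule.span ℂ (Set.range w)) fun z hz =>
        mem_of_monomial_one (d := d) α a v _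
          (fun β => Submodule.subset_span (Set.mem_range.2 ⟨β, hw β⟩)) (hz.trans hd.ge)
    have h3 : 2 * npar m + 1 ≤ 2 * Y.card := h2.trans (Nat.mul_le_mul_left 2 h1)
    omega
  · obtain ⟨w, hw1, hw2⟩ : ∃ w : Idx (Fin m) d ⊕ Idx (Fin m) d → P m,
        (∀ β, w (.inl β) = dk v k (α (monomial β.1 1))) ∧
        ∀ β, w (.inr β) = -(a • dk v k (monomial β.1 1)) :=
      ⟨Sum.elim (fun β => dk v k (α (monomial β.1 1))) (fun β => -(a • dk v k (monomial β.1 1))),
        fun _ => rfl, fun _ => rfl⟩
    have hinj : Function.Injective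
        (Sum.elim (fun β => (j, β)) (fun β => (i, β)) :
          Idx (Fin m) d ⊕ Idx (Fin m) d → ℂ × Idx (Fin m) d) := by
      rintro (x | x) (y | y) h <;> simp only [Sum.elim_inl, Sum.elim_inr, Prod.mk.injEq] at h
      · rw [h.2]
      · exact absurd h.1.symm hij
      · exact absurd h.1 hij
      · rw [h.2]
    have h1 := finrank_le_of_generic (ht.comp _ hinj) Y w (by
      rintro (β | β)
      · rw [hw1]
        exact dk_mem_defined hvY k (algHom_monomial_mem_defined α hαY _)
      · rw [hw2]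
        exact neg_mem (smul_mem_defined haY (dk_mem_defined hvY k (monomial_mem_defined _ _))))
      (by
      rw [← h0, Fintype.sum_sum_type, pol, pol, map_sum, Finset.smul_sum, map_sub, map_sum,
        map_sum, sub_eq_add_neg, ← Finset.sum_neg_distrib]
      congr 1
      · refine Finset.sum_congr rfl fun β _ => ?_
        rw [map_smul, map_smul, hw1]
        rfl
      · refine Finset.sum_congr rfl fun β _ => ?_
        rw [smul_comm a, map_smul, map_smul, ← smul_neg, hw2]
        rfl)
    have := Module.Finite.span_of_finite ℂ (Set.finite_range w)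
    have h2 := rank_bound (μ := 2 * npar m + 1) hk (AlgHom.id ℂ _) (fun l => (totalDegree_X l).le)
      (a := 2) two_ne_zero (Or.inl (by norm_num)) hv
      (Submodule.span ℂ (Set.range w)) fun z hz =>
        mem_of_monomial_one (d := d) _ 2 v _ (fun β => by
          have h3 : w (.inr β) ∈ Submodule.span ℂ (Set.range w) := Submodule.subset_span ⟨_, rfl⟩
          have h4 := Submodule.smul_mem _ a⁻¹ h3
          rw [hw2, smul_neg, smul_smul, inv_mul_cancel₀ ha, one_smul] at h4
          rw [AlgHom.id_apply, two_smul, sub_add_cancel_left, map_neg]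
          exact h4) (hz.trans hd.ge)
    have h3 : 2 * npar m + 1 ≤ 2 * Y.card := h2.trans (Nat.mul_le_mul_left 2 h1)
    omega

end Main

end Pool.Agent.Lib.MP_1309d3_ag
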