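import Pool.Agent.Lib.MP_1309d3_ag.Step

set_option autoImplicit false

namespace Pool.Agent.Lib.MP_1309d3_ag

open MvPolynomial

variable {m : ℕ}

/-- The exchange of the first two variables. -/
noncomputable def sw (m : ℕ) : Aut (m + 1 + 1) := renameEquiv ℂ (Equiv.swap 0 (Fin.succ 0))

theorem sw_X (i : Fin (m + 1 + 1)) : sw m (X i) = X (Equiv.swap 0 (Fin.succ 0) i) := by
  simp [sw]

theorem sw_X_zero : sw m (X 0) = X (Fin.succ 0) := by rw [sw_X, Equiv.swap_apply_left]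

theorem sw_X_one : sw m (X (Fin.succ 0)) = X 0 := by rw [sw_X, Equiv.swap_apply_right]

theorem sw_mem_aff : sw m ∈ Aff (m + 1 + 1) := fun i => by
  rw [sw_X]; exact (totalDegree_X _).le

theorem sw_mul_sw : sw m * sw m = 1 :=
  aut_ext (by rw [AlgEquiv.mul_apply, sw_X, sw_X]; simp)
    (fun j => by rw [AlgEquiv.mul_apply, sw_X, sw_X]; simp)

theorem not_inB_mul_sw {A : Aut (m + 1 + 1)} (hA : A ∈ Aff (m + 1 + 1)) (hB : InB A) :
    ¬ InB (A * sw m) := fun h => by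
  have := h 0
  rw [AlgEquiv.mul_apply, sw_X_one] at this
  exact c0_ne_zero hA hB this

theorem inB_one : InB (1 : Aut (m + 1)) := fun j => by
  have := c0_eq 0 (X j : P m)
  simpa using this

theorem not_inB_sw : ¬ InB (sw m) := by
  simpa using not_inB_mul_sw one_mem_aff (inB_one (m := m + 1))

/-- The data of a very general family. -/
structure Family (m D : ℕ) where
  /-- degree bound -/
  d : ℕ
  /-- defect -/
  μ : ℕ
  /-- the polynomials -/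
  p : ℂ → P m
  hD : μ + 2 ≤ D
  hd : d ≤ D + μ
  good : ∀ (i j : ℂ) (α : P m →ₐ[ℂ] P m), (∀ l, (α (X l)).totalDegree ≤ 1) → ∀ a : ℂ, a ≠ 0 →
      (i ≠ j ∨ a ≠ 1 ∨ ∃ l, α (X l) ≠ X l) → Good d D (α (p j) - a • p i)

theorem exists_family (m N : ℕ) : ∃ D, N ≤ D ∧ Nonempty (Family m D) := by
  obtain ⟨p, hp⟩ := exists_good_family m (2 * npar m + 1 + 2 + N) _ (by omega) rfl
  exact ⟨2 * npar m + 1 + 2 + N, by omega, ⟨⟨_, 2 * npar m + 1, p, by omega, le_rfl, hp⟩⟩⟩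

namespace Family

variable {D : ℕ} (Φ : Family (m + 1) D)

theorem good_neg (i : ℂ) : Good Φ.d D (-Φ.p i) := by
  have := Φ.good i i (AlgHom.id ℂ _) (fun l => (totalDegree_X l).le) 2 two_ne_zero
    (Or.inr (Or.inl (by norm_num)))
  rwa [AlgHom.id_apply, two_smul, sub_add_cancel_left] at this

theorem good_pos (i : ℂ) : Good Φ.d D (Φ.p i) := by
  simpa using (Φ.good_neg i).smul (c := -1) (by norm_num)

theorem stp {T : ℕ} {φ : Aut (m + 1 + 1)} (hφ : Top D φ T) {A : Aut (m + 1 + 1)}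
    (hA : A ∈ Aff (m + 1 + 1)) (hB : ¬ InB A) {q : P (m + 1)} (hq : Good Φ.d D q) :
    ∃ T', Top D (φ * A * E q) T' :=
  ⟨_, step hφ Φ.hD le_rfl Φ.hd hA hB hq⟩

/-- The involutions. -/
noncomputable def F (i : ℂ) : Aut (m + 1 + 1) :=
  E (Φ.p i) * sw m * E (Φ.p i) * sw m * E (-Φ.p i) * sw m * E (-Φ.p i)

theorem F_mul_F (i : ℂ) : Φ.F i * Φ.F i = 1 := by
  have h1 : ∀ x : Aut (m + 1 + 1), E (-Φ.p i) * (E (Φ.p i) * x) = x := fun x => by
    rw [← mul_assoc, E_neg_mul, one_mul]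
  have h2 : ∀ x : Aut (m + 1 + 1), E (Φ.p i) * (E (-Φ.p i) * x) = x := fun x => by
    rw [← mul_assoc, E_mul_neg, one_mul]
  have h3 : ∀ x : Aut (m + 1 + 1), sw m * (sw m * x) = x := fun x => by
    rw [← mul_assoc, sw_mul_sw, one_mul]
  simp only [F, mul_assoc, h1, h2, h3, E_mul_neg]

theorem F_inv (i : ℂ) : (Φ.F i)⁻¹ = Φ.F i := inv_eq_of_mul_eq_one_right (Φ.F_mul_F i)

theorem F_mem_four (i : ℂ) : Φ.F i ∈ FourElem (m + 1 + 1) :=
  ⟨_, E_mem_elem _, _, E_mem_elem _, _, E_mem_elem _, _, E_mem_elem _, _, sw_mem_aff, _, sw_mem_aff,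
    _, sw_mem_aff, rfl⟩

/-- The invariant of reduced words ending in the `i`-th involution. -/
def Inv (i : ℂ) (φ : Aut (m + 1 + 1)) : Prop :=
  ∃ χ T, Top D χ T ∧ φ = χ * sw m * E (-Φ.p i) * sw m * E (-Φ.p i)

theorem inv_base {A : Aut (m + 1 + 1)} (hA : A ∈ Aff (m + 1 + 1)) (i : ℂ) :
    Φ.Inv i (A * Φ.F i) := by
  have h1 := start (le_trans (by omega) Φ.hD) le_rfl sw_mem_aff not_inB_sw hA (Φ.good_pos i)
  obtain ⟨T, h2⟩ := Φ.stp h1 sw_mem_aff not_inB_sw (Φ.good_pos i)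
  exact ⟨_, T, h2, by simp only [F, mul_assoc]⟩

theorem good_conj {A : Aut (m + 1 + 1)} (hA : A ∈ Aff (m + 1 + 1)) (hB : InB A) {i j : ℂ}
    (h : i ≠ j ∨ c0 (A (X 0)) ≠ 1 ∨ ∃ l, res A (X l) ≠ X l) :
    Good Φ.d D ((c0 (A (X 0)))⁻¹ • (res A (Φ.p j) - c0 (A (X 0)) • Φ.p i)) :=
  (Φ.good i j (res A) (deg_res hA) _ (c0_ne_zero hA hB) h).smul (inv_ne_zero (c0_ne_zero hA hB))

theorem inv_step {i j : ℂ} {φ : Aut (m + 1 + 1)} (hφ : Φ.Inv i φ) {A : Aut (m + 1 + 1)}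
    (hA : A ∈ Aff (m + 1 + 1)) (hne : A ≠ 1 ∨ i ≠ j) : Φ.Inv j (φ * A * Φ.F j) := by
  obtain ⟨χ, T, hχ, rfl⟩ := hφ
  suffices h : ∃ T', Top D (χ * sw m * E (-Φ.p i) * sw m * E (-Φ.p i) * A * E (Φ.p j) * sw m *
      E (Φ.p j)) T' by
    obtain ⟨T', h⟩ := h
    exact ⟨_, T', h, by simp only [F, mul_assoc]⟩
  by_cases hB : InB A
  swap
  · obtain ⟨T1, h1⟩ := Φ.stp hχ sw_mem_aff not_inB_sw (Φ.good_neg i)
    obtain ⟨T2, h2⟩ := Φ.stp h1 sw_mem_aff not_inB_sw (Φ.good_neg i)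
    obtain ⟨T3, h3⟩ := Φ.stp h2 hA hB (Φ.good_pos j)
    exact Φ.stp h3 sw_mem_aff not_inB_sw (Φ.good_pos j)
  have hc := conj_eq hA hB (Φ.p j) (Φ.p i)
  by_cases h : i ≠ j ∨ c0 (A (X 0)) ≠ 1 ∨ ∃ l, res A (X l) ≠ X l
  · obtain ⟨T1, h1⟩ := Φ.stp hχ sw_mem_aff not_inB_sw (Φ.good_neg i)
    obtain ⟨T2, h2⟩ := Φ.stp h1 sw_mem_aff not_inB_sw (Φ.good_conj hA hB h)
    obtain ⟨T3, h3⟩ := Φ.stp h2 (mul_mem_aff hA sw_mem_aff) (not_inB_mul_sw hA hB) (Φ.good_pos j)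
    refine ⟨T3, ?_⟩
    convert h3 using 1
    simp only [mul_assoc] at hc ⊢
    rw [← mul_assoc A (E _), ← mul_assoc (E (-Φ.p i)) (A * _), hc]
    simp only [mul_assoc]
  push Not at h
  obtain ⟨rfl, h1, h2⟩ := h
  have hA1 : A ≠ 1 := hne.resolve_right (by simp)
  have hres : res A = AlgHom.id ℂ _ := algHom_ext h2
  rw [h1, hres, AlgHom.id_apply, one_smul, sub_self, smul_zero, E_zero, one_mul] at hc
  have hA2 : sw m * A * sw m ∈ Aff (m + 1 + 1) :=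
    mul_mem_aff (mul_mem_aff sw_mem_aff hA) sw_mem_aff
  have e : χ * sw m * E (-Φ.p i) * sw m * E (-Φ.p i) * A * E (Φ.p i) * sw m * E (Φ.p i) =
      χ * sw m * (E (-Φ.p i) * (sw m * A * sw m) * E (Φ.p i)) := by
    conv_rhs => rw [← hc]
    simp only [mul_assoc]
  rw [e]
  by_cases hB2 : InB (sw m * A * sw m)
  · have h3 : i ≠ i ∨ c0 ((sw m * A * sw m) (X 0)) ≠ 1 ∨
        ∃ l, res (sw m * A * sw m) (X l) ≠ X l := by
      refine Or.inr (Or.inr ?_)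
      by_contra h4
      push Not at h4
      have h5 : sw m * A * sw m = 1 := by
        refine aut_ext ?_ fun l => ?_
        · rw [AlgEquiv.mul_apply, AlgEquiv.mul_apply, sw_X_zero, ← inc_X, inc_res hA hB, h2,
            inc_X, sw_X_one]
          rfl
        · rw [← inc_X, inc_res hA2 hB2, h4]
          rfl
      apply hA1
      calc A = (sw m * sw m) * A * (sw m * sw m) := by rw [sw_mul_sw, one_mul, mul_one]
        _ = sw m * (sw m * A * sw m) * sw m := by simp only [mul_assoc]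
        _ = 1 := by rw [h5, mul_one, sw_mul_sw]
    obtain ⟨T1, h4⟩ := Φ.stp hχ sw_mem_aff not_inB_sw (Φ.good_conj hA2 hB2 h3)
    refine ⟨T1, ?_⟩
    rw [conj_eq hA2 hB2, ← mul_assoc]
    exact top_mul h4 (le_trans (by omega) Φ.hD) hA2 hB2
  · obtain ⟨T1, h4⟩ := Φ.stp hχ sw_mem_aff not_inB_sw (Φ.good_neg i)
    obtain ⟨T2, h5⟩ := Φ.stp h4 hA2 hB2 (Φ.good_pos i)
    exact ⟨T2, by simpa only [mul_assoc] using h5⟩

theorem le_deg_of_inv {i : ℂ} {φ : Aut (m + 1 + 1)} (hφ : Φ.Inv i φ) :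
    D ≤ (φ (X 0)).totalDegree := by
  obtain ⟨χ, T, hχ, rfl⟩ := hφ
  obtain ⟨T1, h1⟩ := Φ.stp hχ sw_mem_aff not_inB_sw (Φ.good_neg i)
  obtain ⟨T2, h2⟩ := Φ.stp h1 sw_mem_aff not_inB_sw (Φ.good_neg i)
  exact le_trans (Nat.le_mul_of_pos_right _ h2.1) h2.2.2

theorem exists_le_deg {i : ℂ} {φ : Aut (m + 1 + 1)} (hφ : Φ.Inv i φ) {A : Aut (m + 1 + 1)}
    (hA : A ∈ Aff (m + 1 + 1)) : ∃ l, D ≤ ((φ * A) (X l)).totalDegree := by
  by_contra h
  push Not at h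
  have h1 := Φ.le_deg_of_inv hφ
  have h2 := deg_aut_le (φ * A) (T := D - 1) (fun l => by have := h l; omega) (A⁻¹ (X 0))
  rw [← AlgEquiv.mul_apply, mul_inv_cancel_right] at h2
  have h3 := Nat.mul_le_mul_right (D - 1) (inv_mem_aff hA 0)
  have := Φ.hD
  omega

/-- Reduced words in the involutions indexed by `J`. -/
inductive Red (J : Set ℂ) : ℂ → Aut (m + 1 + 1) → Prop
  | base {A : Aut (m + 1 + 1)} {j : ℂ} : A ∈ Aff (m + 1 + 1) → j ∈ J → Red J j (A * Φ.F j)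
  | step {φ A : Aut (m + 1 + 1)} {i j : ℂ} : Red J i φ → A ∈ Aff (m + 1 + 1) → j ∈ J →
      (A ≠ 1 ∨ i ≠ j) → Red J j (φ * A * Φ.F j)

theorem Red.inv {J : Set ℂ} {i : ℂ} {φ : Aut (m + 1 + 1)} (h : Φ.Red J i φ) :
    i ∈ J ∧ Φ.Inv i φ := by
  induction h with
  | base hA hj => exact ⟨hj, Φ.inv_base hA _⟩
  | step _ hA hj hne ih => exact ⟨hj, Φ.inv_step ih.2 hA hne⟩

/-- The subgroup generated by the affine group and the involutions indexed by `J`. -/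
noncomputable def G (J : Set ℂ) : Subgroup (Aut (m + 1 + 1)) :=
  Subgroup.closure (Aff (m + 1 + 1) ∪ Φ.F '' J)

theorem normal_form {J : Set ℂ} {φ : Aut (m + 1 + 1)} (h : φ ∈ Φ.G J) :
    φ ∈ Aff (m + 1 + 1) ∨ ∃ i ψ A, Φ.Red J i ψ ∧ A ∈ Aff (m + 1 + 1) ∧ φ = ψ * A := by
  have key : ∀ x y, y ∈ Aff (m + 1 + 1) ∪ Φ.F '' J →
      (x ∈ Aff (m + 1 + 1) ∨ ∃ i ψ A, Φ.Red J i ψ ∧ A ∈ Aff (m + 1 + 1) ∧ x = ψ * A) →
      (x * y ∈ Aff (m + 1 + 1) ∨ ∃ i ψ A, Φ.Red J i ψ ∧ A ∈ Aff (m + 1 + 1) ∧ x * y = ψ * A) := by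
    rintro x y (hy | ⟨j, hj, rfl⟩) (hx | ⟨i, ψ, A, hψ, hA, rfl⟩)
    · exact Or.inl (mul_mem_aff hx hy)
    · exact Or.inr ⟨i, ψ, A * y, hψ, mul_mem_aff hA hy, mul_assoc _ _ _⟩
    · exact Or.inr ⟨j, _, 1, Red.base hx hj, one_mem_aff, (mul_one _).symm⟩
    · by_cases hne : A ≠ 1 ∨ i ≠ j
      · exact Or.inr ⟨j, _, 1, Red.step hψ hA hj hne, one_mem_aff, (mul_one _).symm⟩
      push Not at hne
      obtain ⟨rfl, rfl⟩ := hne
      rw [mul_one]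
      cases hψ with
      | base hA' _ =>
        rw [mul_assoc, F_mul_F, mul_one]
        exact Or.inl hA'
      | step h' hA' _ _ =>
        rw [mul_assoc, F_mul_F, mul_one]
        exact Or.inr ⟨_, _, _, h', hA', rfl⟩
  induction h using Subgroup.closure_induction_right with
  | one => exact Or.inl one_mem_aff
  | mul_right x _ y hy ih => exact key x y hy ih
  | mul_inv_cancel x _ y hy ih =>
    refine key x y⁻¹ ?_ ih
    rcases hy with hy | ⟨j, hj, rfl⟩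
    · exact Or.inl (inv_mem_aff hy)
    · exact Or.inr ⟨j, hj, (Φ.F_inv j).symm⟩

theorem F_not_mem {J : Set ℂ} {k : ℂ} (hk : k ∉ J) : Φ.F k ∉ Φ.G J := by
  intro h
  have hD := Φ.hD
  rcases Φ.normal_form h with h | ⟨i, ψ, A, hψ, hA, e⟩
  · have h1 := Φ.le_deg_of_inv (Φ.inv_base one_mem_aff k)
    rw [one_mul] at h1
    have := h 0
    omega
  · obtain ⟨hi, h1⟩ := Red.inv Φ hψ
    have h2 := Φ.le_deg_of_inv (Φ.inv_step (j := k) h1 hA (Or.inr fun e => hk (e ▸ hi)))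
    rw [← e, F_mul_F] at h2
    have := one_mem_aff (n := m + 1 + 1) 0
    omega

theorem G_mono {J J' : Set ℂ} (h : J ⊆ J') : Φ.G J ≤ Φ.G J' :=
  Subgroup.closure_mono (Set.union_subset_union_right _ (Set.image_mono h))

theorem exists_finite {φ : Aut (m + 1 + 1)} (h : φ ∈ Φ.G Set.univ) :
    ∃ J : Set ℂ, J.Finite ∧ φ ∈ Φ.G J := by
  induction h using Subgroup.closure_induction with
  | mem x hx =>
    rcases hx with hx | ⟨j, -, rfl⟩
    · exact ⟨∅, Set.finite_empty, Subgroup.subset_closure (Or.inl hx)⟩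
    · exact ⟨{j}, Set.finite_singleton j, Subgroup.subset_closure (Or.inr ⟨j, rfl, rfl⟩)⟩
  | one => exact ⟨∅, Set.finite_empty, one_mem _⟩
  | mul x y _ _ hx hy =>
    obtain ⟨J, hJ, hx⟩ := hx
    obtain ⟨J', hJ', hy⟩ := hy
    exact ⟨J ∪ J', hJ.union hJ', mul_mem (Φ.G_mono Set.subset_union_left hx)
      (Φ.G_mono Set.subset_union_right hy)⟩
  | inv x _ hx =>
    obtain ⟨J, hJ, hx⟩ := hx
    exact ⟨J, hJ, inv_mem hx⟩

theorem closure_ne {S : Set (Aut (m + 1 + 1))} (hS : S ⊆ Φ.G Set.univ)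
    (hc : Cardinal.mk S < Cardinal.continuum) :
    Subgroup.closure (Aff (m + 1 + 1) ∪ S) ≠ Φ.G Set.univ := by
  choose J hJ hmem using fun x : S => Φ.exists_finite (hS x.2)
  have h1 : Cardinal.mk (⋃ x, J x : Set ℂ) < Cardinal.continuum := by
    refine Cardinal.mk_iUnion_le_sum_mk.trans_lt ?_
    refine (Cardinal.sum_le_sum _ (fun _ => Cardinal.aleph0)
      fun x => (hJ x).lt_aleph0.le).trans_lt ?_
    rw [Cardinal.sum_const']
    exact Cardinal.mul_lt_of_lt Cardinal.aleph0_le_continuum hc Cardinal.aleph0_lt_continuum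
  obtain ⟨k, hk⟩ : ∃ k, k ∉ (⋃ x, J x : Set ℂ) := by
    by_contra h
    push Not at h
    rw [Set.eq_univ_of_forall h, Cardinal.mk_univ, Cardinal.mk_complex] at h1
    exact lt_irrefl _ h1
  intro e
  have h2 : Subgroup.closure (Aff (m + 1 + 1) ∪ S) ≤ Φ.G (⋃ x, J x) := by
    rw [Subgroup.closure_le]
    rintro x (hx | hx)
    · exact Subgroup.subset_closure (Or.inl hx)
    · exact Φ.G_mono (Set.subset_iUnion J ⟨x, hx⟩) (hmem ⟨x, hx⟩)
  refine Φ.F_not_mem hk (h2 ?_)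
  rw [e]
  exact Subgroup.subset_closure (Or.inr ⟨k, trivial, rfl⟩)

end Family

theorem main (n : ℕ) (hn : 2 ≤ n) (N : ℕ) :
    ∃ T : Set (Aut n), T ⊆ FourElem n ∧
      (∀ φ ∈ gen T, φ ∈ Aff n ∨ ∃ i, N ≤ (φ (X i)).totalDegree) ∧
      ∀ S : Set (Aut n), S ⊆ gen T → Cardinal.mk S < Cardinal.continuum → gen S ≠ gen T := by
  obtain ⟨m, rfl⟩ : ∃ m, n = m + 1 + 1 := ⟨n - 2, by omega⟩
  obtain ⟨D, hD, ⟨Φ⟩⟩ := exists_family (m + 1) N
  refine ⟨Φ.F '' Set.univ, ?_, fun φ hφ => ?_, fun S hS hc => Φ.closure_ne hS hc⟩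
  · rintro x ⟨j, -, rfl⟩
    exact Φ.F_mem_four j
  · rcases Φ.normal_form hφ with h | ⟨i, ψ, A, hψ, hA, rfl⟩
    · exact Or.inl h
    · obtain ⟨l, hl⟩ := Φ.exists_le_deg (Family.Red.inv Φ hψ).2 hA
      exact Or.inr ⟨l, hD.trans hl⟩

end Pool.Agent.Lib.MP_1309d3_ag
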