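import Pool.Agent.Lib.MP_1309d3_ag.Generic
import Pool.Agent.Lib.MP_1309d3_ag.Defs

set_option autoImplicit false

namespace Pool.Agent.Lib.MP_1309d3_ag

open MvPolynomial

section Affine

variable {n : ℕ}

theorem one_mem_aff : (1 : Aut n) ∈ Aff n := fun i => (totalDegree_X i).le

theorem deg_aut_le (φ : Aut n) {T : ℕ} (h : ∀ l, (φ (X l)).totalDegree ≤ T) (f : P n) :
    (φ f).totalDegree ≤ f.totalDegree * T :=
  totalDegree_algHom_le (φ : P n →ₐ[ℂ] P n) h f

theorem mul_mem_aff {A B : Aut n} (hA : A ∈ Aff n) (hB : B ∈ Aff n) : A * B ∈ Aff n := fun i =>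
  (deg_aut_le A hA _).trans (by simpa using hB i)

theorem inv_mem_aff {A : Aut n} (hA : A ∈ Aff n) : A⁻¹ ∈ Aff n := by
  intro i
  let V := restrictTotalDegree (Fin n) ℂ 1
  let L : V →ₗ[ℂ] V := (A.toLinearMap.domRestrict V).codRestrict V fun x => by
    have hx := (mem_restrictTotalDegree _ _ _).1 x.2
    exact (mem_restrictTotalDegree _ _ _).2 ((deg_aut_le A hA _).trans (by simpa using hx))
  have hinj : Function.Injective L := fun x y h =>
    Subtype.ext (A.injective (congrArg Subtype.val h))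
  obtain ⟨y, hy⟩ := (LinearMap.injective_iff_surjective.1 hinj)
    ⟨X i, (mem_restrictTotalDegree _ _ _).2 (totalDegree_X i).le⟩
  have h1 : A y.1 = X i := congrArg Subtype.val hy
  have h2 : A⁻¹ (X i) = y.1 := by rw [← h1]; exact A.symm_apply_apply _
  rw [h2]
  exact (mem_restrictTotalDegree _ _ _).1 y.2

end Affine

variable {m : ℕ}

/-- Polynomials in the last `m` variables. -/
noncomputable def inc (m : ℕ) : P m →ₐ[ℂ] P (m + 1) := rename Fin.succ

/-- Setting the first variable to zero. -/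
noncomputable def ret (m : ℕ) : P (m + 1) →ₐ[ℂ] P m := aeval (Fin.cons 0 X)

@[simp] theorem inc_X (j : Fin m) : inc m (X j) = X j.succ := rename_X _ _

@[simp] theorem ret_X_zero : ret m (X 0) = 0 := by simp [ret]

@[simp] theorem ret_X_succ (j : Fin m) : ret m (X j.succ) = X j := by simp [ret]

@[simp] theorem ret_inc (q : P m) : ret m (inc m q) = q := by
  have : (ret m).comp (inc m) = AlgHom.id ℂ _ := algHom_ext fun j => by simp
  exact AlgHom.congr_fun this q

theorem inc_injective : Function.Injective (inc m) :=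
  Function.LeftInverse.injective ret_inc

theorem deg_ret_le (f : P (m + 1)) : (ret m f).totalDegree ≤ f.totalDegree := by
  refine (totalDegree_algHom_le (ret m) (T := 1) (fun l => ?_) f).trans (by simp)
  refine Fin.cases ?_ (fun j => ?_) l
  · simp
  · simp

/-- The coefficient of the first variable. -/
noncomputable def c0 (f : P (m + 1)) : ℂ := coeff (Finsupp.single 0 1) f

theorem affine_split {f : P (m + 1)} (hf : f.totalDegree ≤ 1) :
    f = c0 f • X 0 + inc m (ret m f) := by
  have h := affine_repr hf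
  rw [Fin.sum_univ_succ] at h
  have h2 : inc m (ret m f) =
      C (coeff 0 f) + ∑ i : Fin m, coeff (Finsupp.single i.succ 1) f • X i.succ := by
    conv_lhs => rw [h]
    simp only [map_add, map_sum, map_smul, ret_X_zero, ret_X_succ, inc_X, smul_zero, zero_add,
      algHom_C, algebraMap_eq]
  rw [h2, c0]
  exact h.trans (by ring)

theorem pderiv_inc (q : P m) : pderiv 0 (inc m q) = 0 := by
  have := chain (pderiv 0) (inc m) 0 (fun j => by simp [Fin.succ_ne_zero]) q
  rw [this, show (0 : Fin m → ℂ) = (0 : ℂ) • (0 : Fin m → ℂ) by simp, dv_smul]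
  simp

theorem pderiv_affine {f : P (m + 1)} (hf : f.totalDegree ≤ 1) : pderiv 0 f = C (c0 f) := by
  conv_lhs => rw [affine_split hf]
  rw [map_add, pderiv_inc, add_zero, Derivation.map_smul, pderiv_X_self, smul_eq_C_mul, mul_one]

theorem c0_eq (a : ℂ) (q : P m) : c0 (a • X 0 + inc m q) = a := by
  have h1 : coeff (Finsupp.single 0 1) (inc m q) = 0 := by
    have := congrArg (coeff 0) (pderiv_inc q)
    rw [coeff_pderiv] at this
    simpa using this
  rw [c0, coeff_add, h1, coeff_smul, coeff_X_same]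
  simp

/-- The shear as an algebra map. -/
noncomputable def Eh (q : P m) : P (m + 1) →ₐ[ℂ] P (m + 1) :=
  aeval (Fin.cons (X 0 + inc m q) fun j => X j.succ)

theorem Eh_zero' (q : P m) : Eh q (X 0) = X 0 + inc m q := by simp [Eh]

theorem Eh_succ (q : P m) (j : Fin m) : Eh q (X j.succ) = X j.succ := by simp [Eh]

theorem Eh_inc (q r : P m) : Eh q (inc m r) = inc m r := by
  have : (Eh q).comp (inc m) = inc m := algHom_ext fun j => by simp [Eh_succ]
  exact AlgHom.congr_fun this r

theorem Eh_comp {q r : P m} (h : q + r = 0) : (Eh q).comp (Eh r) = AlgHom.id ℂ _ := by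
  refine algHom_ext fun i => Fin.cases ?_ (fun j => ?_) i
  · rw [AlgHom.comp_apply, Eh_zero', map_add, Eh_zero', Eh_inc, add_assoc, ← map_add, h]
    simp
  · simp [Eh_succ]

/-- The shear adding `q` to the first coordinate. -/
noncomputable def E (q : P m) : Aut (m + 1) :=
  AlgEquiv.ofAlgHom (Eh q) (Eh (-q)) (Eh_comp (add_neg_cancel q)) (Eh_comp (neg_add_cancel q))

@[simp] theorem E_zero' (q : P m) : E q (X 0) = X 0 + inc m q := Eh_zero' q

@[simp] theorem E_succ (q : P m) (j : Fin m) : E q (X j.succ) = X j.succ := Eh_succ q j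

@[simp] theorem E_inc (q r : P m) : E q (inc m r) = inc m r := Eh_inc q r

theorem aut_ext {φ ψ : Aut (m + 1)} (h0 : φ (X 0) = ψ (X 0))
    (h : ∀ j : Fin m, φ (X j.succ) = ψ (X j.succ)) : φ = ψ := by
  have : (φ : P (m + 1) →ₐ[ℂ] P (m + 1)) = ψ := algHom_ext fun i => Fin.cases h0 h i
  exact AlgEquiv.ext fun x => AlgHom.congr_fun this x

theorem E_neg_mul (q : P m) : E (-q) * E q = 1 :=
  aut_ext (by simp) (fun j => by simp)

theorem E_mul_neg (q : P m) : E q * E (-q) = 1 :=
  aut_ext (by simp) (fun j => by simp)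

theorem E_zero : E (0 : P m) = 1 := aut_ext (by simp) (fun j => by simp)

theorem E_mem_elem (q : P m) : E q ∈ Elem (m + 1) := by
  refine ⟨0, inc m q, fun h => ?_, E_zero' q, fun j hj => ?_⟩
  · obtain ⟨j, -, hj⟩ := mem_vars_rename _ _ h
    exact Fin.succ_ne_zero j hj
  · obtain ⟨j, rfl⟩ := Fin.exists_succ_eq.2 hj
    exact E_succ q j

/-- The affine maps preserving the span of the last variables. -/
def InB (A : Aut (m + 1)) : Prop := ∀ j : Fin m, c0 (A (X j.succ)) = 0

/-- The first coordinate has much larger degree than the others. -/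
def Top (D : ℕ) (φ : Aut (m + 1)) (T : ℕ) : Prop :=
  1 ≤ T ∧ (∀ j : Fin m, (φ (X j.succ)).totalDegree ≤ T) ∧ D * T ≤ (φ (X 0)).totalDegree

theorem deg_inc_le {φ : Aut (m + 1)} {T : ℕ} (h : ∀ j : Fin m, (φ (X j.succ)).totalDegree ≤ T)
    (q : P m) : (φ (inc m q)).totalDegree ≤ q.totalDegree * T :=
  totalDegree_algHom_le ((φ : P (m + 1) →ₐ[ℂ] P (m + 1)).comp (inc m)) (fun j => by
    simpa using h j) q

theorem iterate_pderiv_eq_zero {σ : Type} (i : σ) (k : ℕ) (f : MvPolynomial σ ℂ)
    (h : ∀ γ ∈ f.support, γ i < k) : (pderiv i)^[k] f = 0 := by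
  induction k generalizing f with
  | zero =>
    rw [Function.iterate_zero_apply, ← support_eq_empty, Finset.eq_empty_iff_forall_notMem]
    exact fun γ hγ => absurd (h γ hγ) (Nat.not_lt_zero _)
  | succ k ih =>
    rw [Function.iterate_succ_apply]
    refine ih _ fun γ hγ => ?_
    rw [mem_support_iff, coeff_pderiv] at hγ
    have := h _ (mem_support_iff.2 (left_ne_zero_of_mul hγ))
    simpa using this

theorem le_degreeOf {d k : ℕ} {q : P m} (hq : Good d k q) {A : Aut (m + 1)} (hA : A ∈ Aff (m + 1))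
    (hB : ¬ InB A) : k ≤ degreeOf 0 (A (inc m q)) := by
  let v : Fin m → ℂ := fun j => c0 (A (X j.succ))
  have hv : v ≠ 0 := fun h => hB fun j => congrFun h j
  have h1 := chain_iter (pderiv 0) ((A : P (m + 1) →ₐ[ℂ] P (m + 1)).comp (inc m)) v (fun j => by
    simpa using pderiv_affine (hA j.succ)) k q
  by_contra hlt
  have h2 := iterate_pderiv_eq_zero 0 k (A (inc m q)) fun γ hγ =>
    (monomial_le_degreeOf 0 hγ).trans_lt (not_le.1 hlt)
  have h3 : A (inc m (dk v k q)) = 0 := by
    rw [dk_apply]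
    exact h1.symm.trans h2
  rw [EmbeddingLike.map_eq_zero_iff, ← map_zero (inc m)] at h3
  exact hq.2 v hv (inc_injective h3)

theorem finSuccEquiv_inc (c : P m) : finSuccEquiv ℂ m (inc m c) = Polynomial.C c := by
  induction c using MvPolynomial.induction_on with
  | C a => simp [finSuccEquiv_apply]
  | add p q hp hq => simp [hp, hq]
  | mul_X p j hp => rw [map_mul, map_mul, hp, inc_X, finSuccEquiv_X_succ, map_mul]

theorem deg_pow_aut (φ : Aut (m + 1)) (i : Fin (m + 1)) (k : ℕ) :
    (φ (X i ^ k)).totalDegree = k * (φ (X i)).totalDegree := by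
  have h0 : φ (X i) ≠ 0 := by simp
  rw [map_pow]
  induction k with
  | zero => simp
  | succ k ih => rw [pow_succ, totalDegree_mul_of_isDomain (pow_ne_zero _ h0) h0, ih]; ring

/-- The top power of the first variable dominates. -/
theorem dominance {D T μ : ℕ} {φ : Aut (m + 1)} (hφ : Top D φ T) (hD : μ + 2 ≤ D)
    {f : P (m + 1)} (h1 : 1 ≤ degreeOf 0 f) (hf : f.totalDegree ≤ degreeOf 0 f + μ) :
    degreeOf 0 f * (φ (X 0)).totalDegree ≤ (φ f).totalDegree := by
  obtain ⟨hT, hs, h0⟩ := hφ
  set g := finSuccEquiv ℂ m f with hg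
  set κ := degreeOf 0 f with hκ
  set T' := (φ (X 0)).totalDegree with hT'
  have hκg : g.natDegree = κ := natDegree_finSuccEquiv f
  have hg0 : g ≠ 0 := by
    intro h
    rw [h] at hκg
    simp at hκg
    omega
  have hlead : g.coeff κ ≠ 0 := by
    rw [← hκg]
    exact Polynomial.leadingCoeff_ne_zero.2 hg0
  have e : f = inc m (g.coeff κ) * X 0 ^ κ +
      ∑ i ∈ Finset.range κ, inc m (g.coeff i) * X 0 ^ i := by
    apply (finSuccEquiv ℂ m).injective
    rw [add_comm (inc m (g.coeff κ) * X 0 ^ κ),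
      ← Finset.sum_range_succ (fun i => inc m (g.coeff i) * X 0 ^ i), map_sum]
    simp only [map_mul, map_pow, finSuccEquiv_inc, finSuccEquiv_X_zero]
    rw [← hκg]
    exact g.as_sum_range_C_mul_X_pow
  have hpos : 0 < κ * T' := Nat.mul_pos h1 (by nlinarith)
  have e1 : κ * T' ≤ (φ (inc m (g.coeff κ) * X 0 ^ κ)).totalDegree := by
    rw [map_mul, totalDegree_mul_of_isDomain, deg_pow_aut]
    · exact Nat.le_add_left _ _
    · rw [ne_eq, EmbeddingLike.map_eq_zero_iff, ← map_zero (inc m)]
      exact fun h => hlead (inc_injective h)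
    · simp
  have e2 : (φ (∑ i ∈ Finset.range κ, inc m (g.coeff i) * X 0 ^ i)).totalDegree ≤ κ * T' - 1 := by
    rw [map_sum]
    refine totalDegree_finsetSum_le fun i hi => ?_
    by_cases hc : g.coeff i = 0
    · simp [hc]
    have hi' := Finset.mem_range.1 hi
    have h2 := totalDegree_coeff_finSuccEquiv_add_le f i hc
    rw [map_mul]
    refine (totalDegree_mul _ _).trans ?_
    rw [deg_pow_aut]
    have h3 := deg_inc_le hs (g.coeff i)
    obtain ⟨j, hj⟩ : ∃ j, κ = i + (j + 1) := ⟨κ - i - 1, by omega⟩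
    have h4 : (g.coeff i).totalDegree ≤ j + 1 + μ := by rw [← hg] at h2; omega
    have h5 : (g.coeff i).totalDegree * T < (j + 1) * T' := by
      calc (g.coeff i).totalDegree * T ≤ (j + 1 + μ) * T := Nat.mul_le_mul_right _ h4
        _ < ((j + 1) * (μ + 2)) * T := Nat.mul_lt_mul_of_pos_right (by nlinarith) hT
        _ = (j + 1) * ((μ + 2) * T) := by ring
        _ ≤ (j + 1) * T' :=
          Nat.mul_le_mul_left _ ((Nat.mul_le_mul_right _ hD).trans h0)
    have h6 : κ * T' = i * T' + (j + 1) * T' := by rw [hj]; ring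
    rw [← hT']
    omega
  conv_rhs => rw [e, map_add]
  rw [totalDegree_add_eq_left_of_totalDegree_lt (by omega)]
  exact e1

theorem step {D T μ d k : ℕ} {φ : Aut (m + 1)} (hφ : Top D φ T) (hD : μ + 2 ≤ D) (hk : D ≤ k)
    (hd : d ≤ k + μ) {A : Aut (m + 1)} (hA : A ∈ Aff (m + 1)) (hB : ¬ InB A) {q : P m}
    (hq : Good d k q) : Top D (φ * A * E q) (φ (X 0)).totalDegree := by
  have hκ := le_degreeOf hq hA hB
  have hdeg : (A (inc m q)).totalDegree ≤ d :=
    (deg_inc_le (fun j => hA j.succ) q).trans (by simpa using hq.1)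
  have hdom := dominance hφ hD (f := A (inc m q)) (by omega) (by omega)
  obtain ⟨hT, hs, h0⟩ := hφ
  have hT' : T ≤ (φ (X 0)).totalDegree := le_trans (by nlinarith) h0
  have hall : ∀ i, (φ (A (X i))).totalDegree ≤ (φ (X 0)).totalDegree := fun i =>
    (deg_aut_le φ (T := (φ (X 0)).totalDegree)
      (fun l => Fin.cases le_rfl (fun j => (hs j).trans hT') l) _).trans
      ((Nat.mul_le_mul_right _ (hA i)).trans (by simp))
  have hlow : D * (φ (X 0)).totalDegree ≤ (φ (A (inc m q))).totalDegree :=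
    (Nat.mul_le_mul_right _ (hk.trans hκ)).trans hdom
  refine ⟨hT.trans hT', fun j => ?_, ?_⟩
  · simpa using hall j.succ
  · have h1 := hall 0
    have h2 : (φ (X 0)).totalDegree < D * (φ (X 0)).totalDegree := by nlinarith
    simp only [AlgEquiv.mul_apply, E_zero', map_add]
    rw [totalDegree_add_eq_right_of_totalDegree_lt (by omega)]
    exact hlow

theorem start {D d k : ℕ} (hD : 2 ≤ D) (hk : D ≤ k) {S : Aut (m + 1)} (hS : S ∈ Aff (m + 1))
    (hSB : ¬ InB S) {A : Aut (m + 1)} (hA : A ∈ Aff (m + 1)) {q : P m}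
    (hq : Good d k q) : Top D (A * E q) 1 := by
  have h1 := (le_degreeOf hq hS hSB).trans (degreeOf_le_totalDegree _ _)
  have h2 := deg_aut_le (S * A⁻¹) (mul_mem_aff hS (inv_mem_aff hA)) (A (inc m q))
  have h3 : (S * A⁻¹) (A (inc m q)) = S (inc m q) := by
    rw [← AlgEquiv.mul_apply, inv_mul_cancel_right]
  rw [h3] at h2
  refine ⟨le_rfl, fun j => by simpa using hA j.succ, ?_⟩
  have h4 := hA 0
  simp only [AlgEquiv.mul_apply, E_zero', map_add]
  rw [totalDegree_add_eq_right_of_totalDegree_lt (by omega)]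
  omega

/-- The action on the last variables. -/
noncomputable def res (A : Aut (m + 1)) : P m →ₐ[ℂ] P m :=
  (ret m).comp ((A : P (m + 1) →ₐ[ℂ] P (m + 1)).comp (inc m))

theorem res_X (A : Aut (m + 1)) (j : Fin m) : res A (X j) = ret m (A (X j.succ)) := by simp [res]

theorem deg_res {A : Aut (m + 1)} (hA : A ∈ Aff (m + 1)) (j : Fin m) :
    (res A (X j)).totalDegree ≤ 1 := by
  rw [res_X]; exact (deg_ret_le _).trans (hA _)

theorem inc_res {A : Aut (m + 1)} (hA : A ∈ Aff (m + 1)) (hB : InB A) (q : P m) :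
    A (inc m q) = inc m (res A q) := by
  have : (A : P (m + 1) →ₐ[ℂ] P (m + 1)).comp (inc m) = (inc m).comp (res A) :=
    algHom_ext fun j => by
      have := affine_split (hA j.succ)
      rw [hB j, zero_smul, zero_add] at this
      simpa [res_X] using this
  exact AlgHom.congr_fun this q

theorem c0_ne_zero {A : Aut (m + 1)} (hA : A ∈ Aff (m + 1)) (hB : InB A) : c0 (A (X 0)) ≠ 0 := by
  intro h
  have h1 : (A : P (m + 1) →ₐ[ℂ] P (m + 1)) = (inc m).comp ((ret m).comp A) :=
    algHom_ext fun i => by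
      have := affine_split (hA i)
      have h2 : c0 (A (X i)) = 0 := Fin.cases h hB i
      rw [h2, zero_smul, zero_add] at this
      simpa using this
  have h2 := AlgHom.congr_fun h1 (A.symm (X 0))
  simp at h2

theorem top_mul {D T : ℕ} {φ : Aut (m + 1)} (hφ : Top D φ T) (hD : 2 ≤ D) {A : Aut (m + 1)}
    (hA : A ∈ Aff (m + 1)) (hB : InB A) : Top D (φ * A) T := by
  obtain ⟨hT, hs, h0⟩ := hφ
  refine ⟨hT, fun j => ?_, ?_⟩
  · rw [AlgEquiv.mul_apply, ← inc_X, inc_res hA hB]
    exact (deg_inc_le hs _).trans ((Nat.mul_le_mul_right _ (deg_res hA j)).trans (by simp))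
  · have h1 := (deg_inc_le hs (ret m (A (X 0)))).trans
      (Nat.mul_le_mul_right _ ((deg_ret_le _).trans (hA 0)))
    have h2 : (c0 (A (X 0)) • φ (X 0)).totalDegree = (φ (X 0)).totalDegree := by
      rw [smul_eq_C_mul, totalDegree_mul_of_isDomain (by simpa using c0_ne_zero hA hB) (by simp),
        totalDegree_C, zero_add]
    rw [AlgEquiv.mul_apply, affine_split (hA 0), map_add, map_smul,
      totalDegree_add_eq_left_of_totalDegree_lt (by nlinarith), h2]
    exact h0

theorem conj_eq {A : Aut (m + 1)} (hA : A ∈ Aff (m + 1)) (hB : InB A) (p p' : P m) :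
    E (-p') * A * E p = E ((c0 (A (X 0)))⁻¹ • (res A p - c0 (A (X 0)) • p')) * A := by
  have ha := c0_ne_zero hA hB
  refine aut_ext ?_ fun j => ?_
  · simp only [AlgEquiv.mul_apply, E_zero', map_add]
    rw [inc_res hA hB]
    generalize hc : c0 (A (X 0)) = a at ha
    rw [affine_split (hA 0), hc]
    simp only [map_add, map_smul, E_zero', E_inc, map_neg, map_sub, smul_add, smul_smul,
      mul_inv_cancel₀ ha, one_smul, smul_neg]
    ring
  · simp only [AlgEquiv.mul_apply, E_succ]
    rw [← inc_X, inc_res hA hB, E_inc, E_inc]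

end Pool.Agent.Lib.MP_1309d3_ag
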