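import Mathlib

set_option autoImplicit false

namespace Pool.Agent.Lib.MP_1309d3_ag

open MvPolynomial Module

/-- An algebraically independent family inside a field with `N` generators has at most `N`
members. -/
theorem card_le_of_mem_closure {ι : Type} [Fintype ι] {t : ι → ℂ}
    (ht : AlgebraicIndependent ℚ t) (Y : Finset ℂ)
    (h : ∀ i, t i ∈ Subfield.closure (Y : Set ℂ)) : Fintype.card ι ≤ Y.card := by
  classical
  let M := AlgebraicIndependent.matroid ℚ ℂ
  let F : Subfield ℂ :=
    { (Subalgebra.algebraicClosure (Algebra.adjoin ℚ (Y : Set ℂ)) ℂ).toSubring with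
      inv_mem' := fun x hx => by
        have hx' : IsAlgebraic (Algebra.adjoin ℚ (Y : Set ℂ)) x := hx
        exact hx'.inv }
  have hF : Subfield.closure (Y : Set ℂ) ≤ F := by
    rw [Subfield.closure_le]
    intro y hy
    exact isAlgebraic_algebraMap (⟨y, Algebra.subset_adjoin hy⟩ : Algebra.adjoin ℚ (Y : Set ℂ))
  have hsub : Set.range t ⊆ M.closure (Y : Set ℂ) := by
    rintro _ ⟨i, rfl⟩
    rw [AlgebraicIndependent.matroid_closure_eq]
    exact hF (h i)
  have hind : M.Indep (Set.range t) := by
    rw [AlgebraicIndependent.matroid_indep_iff]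
    exact ht.to_subtype_range
  have h1 : (Set.range t).encard ≤ (Y : Set ℂ).encard := by
    rw [← hind.eRk_eq_encard]
    exact (M.eRk_mono hsub).trans ((M.eRk_closure_eq _).le.trans (M.eRk_le_encard _))
  rw [← Set.image_univ, ht.injective.injOn.encard_image, Set.encard_univ, ENat.card_eq_coe_fintype_card,
    Set.encard_coe_eq_coe_finsetCard] at h1
  exact_mod_cast h1

/-- A linear relation with algebraically independent coefficients between polynomials defined over
a field with `N` generators forces the polynomials to span at most `N` dimensions. -/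
theorem finrank_le_of_generic {ι σ : Type} [Fintype ι] {t : ι → ℂ}
    (ht : AlgebraicIndependent ℚ t) (Y : Finset ℂ) (w : ι → MvPolynomial σ ℂ)
    (hw : ∀ i γ, coeff γ (w i) ∈ Subfield.closure (Y : Set ℂ))
    (hrel : ∑ i, t i • w i = 0) :
    finrank ℂ (Submodule.span ℂ (Set.range w)) ≤ Y.card := by
  classical
  set K : Subfield ℂ := Subfield.closure (Y : Set ℂ) with hK
  let L : (ι → ℂ) →ₗ[ℂ] MvPolynomial σ ℂ := Fintype.linearCombination ℂ w
  have hrange : LinearMap.range L = Submodule.span ℂ (Set.range w) :=
    Fintype.range_linearCombination ℂ w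
  have hrk := LinearMap.finrank_range_add_finrank_ker L
  rw [hrange, Module.finrank_fintype_fun_eq_card] at hrk
  let Θ : Set (ι → ℂ) := {τ | L τ = 0 ∧ ∀ i, τ i ∈ K}
  let b := Module.Basis.ofVectorSpace K ℂ
  have htΘ : t ∈ Submodule.span ℂ Θ := by
    let J := Finset.univ.biUnion fun i => (b.repr (t i)).support
    have e : t = ∑ j ∈ J, b j • fun i => ((b.repr (t i) j : K) : ℂ) := by
      funext i
      have h1 : (b.repr (t i)).sum (fun j a => a • b j) = t i := by
        have := b.linearCombination_repr (t i)
        rwa [Finsupp.linearCombination_apply] at this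
      rw [Finsupp.sum_of_support_subset _ (s := J)
        (Finset.subset_biUnion_of_mem (fun i => (b.repr (t i)).support) (Finset.mem_univ i))
        _ (by simp)] at h1
      rw [Finset.sum_apply]
      refine h1.symm.trans (Finset.sum_congr rfl fun j _ => ?_)
      simp [Subfield.smul_def, mul_comm]
    rw [e]
    refine Submodule.sum_mem _ fun j _ => Submodule.smul_mem _ _ (Submodule.subset_span ⟨?_, fun i => SetLike.coe_mem _⟩)
    ext γ
    have h0 : ∑ i, (⟨coeff γ (w i), hw i γ⟩ : K) • t i = 0 := by
      have := congrArg (coeff γ) hrel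
      rw [coeff_sum, coeff_zero] at this
      rw [← this]
      refine Finset.sum_congr rfl fun i _ => ?_
      simp [Subfield.smul_def, mul_comm]
    have h1 := congrArg (fun x => ((b.repr x j : K) : ℂ)) h0
    simp only [map_sum, map_smul, Finsupp.coe_finsetSum, Finset.sum_apply, Finsupp.smul_apply,
      smul_eq_mul, map_zero, Finsupp.coe_zero, Pi.zero_apply, ZeroMemClass.coe_zero,
      AddSubmonoidClass.coe_finsetSum, MulMemClass.coe_mul] at h1
    simp only [L, Fintype.linearCombination_apply, coeff_sum, coeff_smul, smul_eq_mul, coeff_zero]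
    rw [← h1]
    exact Finset.sum_congr rfl fun i _ => mul_comm _ _
  obtain ⟨B, hBΘ, hBs, hBi⟩ := exists_linearIndependent ℂ Θ
  rw [← hBs] at htΘ
  obtain ⟨u, F, hFB, -, hsum⟩ := Submodule.mem_span_iff_exists_finset_subset.1 htΘ
  have hFc : F.card ≤ finrank ℂ (LinearMap.ker L) := by
    have hi : LinearIndepOn ℂ id (F : Set (ι → ℂ)) := LinearIndepOn.mono hBi hFB
    rw [← finrank_span_finset_eq_card hi]
    refine Submodule.finrank_mono ?_
    rw [Submodule.span_le]
    intro τ hτ
    exact (hBΘ (hFB hτ)).1
  have hc := card_le_of_mem_closure ht (Y ∪ F.image u) (fun i => by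
    rw [← hsum, Finset.sum_apply]
    refine Subfield.sum_mem _ fun τ hτ => ?_
    rw [Pi.smul_apply, smul_eq_mul]
    refine Subfield.mul_mem _ (Subfield.subset_closure ?_) ?_
    · simp only [Finset.coe_union, Finset.coe_image, Set.mem_union]
      exact Or.inr ⟨τ, hτ, rfl⟩
    · exact Subfield.closure_mono (by simp) ((hBΘ (hFB hτ)).2 i))
  have h2 : (Y ∪ F.image u).card ≤ Y.card + F.card :=
    (Finset.card_union_le _ _).trans (Nat.add_le_add_left Finset.card_image_le _)
  omega

/-- Continuum many algebraically independent complex numbers. -/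
theorem exists_generic (ι : Type) [Fintype ι] [Nonempty ι] :
    ∃ t : ℂ × ι → ℂ, AlgebraicIndependent ℚ t := by
  obtain ⟨s, hs⟩ := exists_isTranscendenceBasis ℚ ℂ
  have h1 : Cardinal.mk ℂ = Cardinal.mk s :=
    IsAlgClosed.cardinal_eq_cardinal_transcendence_basis_of_aleph0_lt' _ hs (by simp)
      (by rw [Cardinal.mk_complex]; exact Cardinal.aleph0_lt_continuum)
  have h2 : Cardinal.mk (ℂ × ι) ≤ Cardinal.mk s := by
    rw [← h1, Cardinal.mk_prod, Cardinal.lift_id, Cardinal.lift_id, Cardinal.mk_complex]
    refine (Cardinal.mul_le_max_of_aleph0_le_left Cardinal.aleph0_le_continuum).trans ?_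
    exact max_le le_rfl ((Cardinal.lt_aleph0_of_finite ι).le.trans Cardinal.aleph0_le_continuum)
  obtain ⟨e⟩ := (Cardinal.le_def _ _).1 h2
  exact ⟨_, hs.1.comp e e.injective⟩

end Pool.Agent.Lib.MP_1309d3_ag
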